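import Mathlib

/-!
# The hierarchical preferential attachment model (definitions)

Nodes are numbered `0, 1, 2, …`. Node `0` starts with a self-loop. A history of the first `n + 1` nodes
records, for every node `m + 1 ≤ n`, the node it links to (itself for a loop).
-/

set_option autoImplicit false

open Filter Topology

namespace Pool.Agent.L7h93.HPA

/-- a probability vector and a matrix (raw data; see `Par.Adm`) -/
structure Par (K : ℕ) where
  /-- the weights of the labels -/
  pi : Fin K → ℝ
  /-- the matrix -/
  gm : Fin K → Fin K → ℝ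

/-- the parameters of the model: `pi` is a probability vector, `gm` is symmetric with positive entries -/
structure Par.Adm {K : ℕ} (θ : Par K) : Prop where
  pi_nonneg : ∀ j, 0 ≤ θ.pi j
  pi_sum : ∑ j, θ.pi j = 1
  gm_pos : ∀ i j, 0 < θ.gm i j
  gm_symm : ∀ i j, θ.gm i j = θ.gm j i

/-- The observed histories of the nodes `0, …, n`: node `m + 1` links to an element of
`{0, …, m + 1}`, where `m + 1` itself means a loop. -/
def Hist : ℕ → Type
  | 0 => Unit
  | (n + 1) => Hist n × Fin (n + 2)

instance instFintypeHist : (n : ℕ) → Fintype (Hist n)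
  | 0 => inferInstanceAs (Fintype Unit)
  | (n + 1) =>
    haveI := instFintypeHist n
    inferInstanceAs (Fintype (Hist n × Fin (n + 2)))

/-- the degrees of the nodes `0, …, n` (a loop counts twice): node `0` starts with degree `2`, a new node
has degree `1` from its own half of the edge, and the node it links to gains `1` -/
def deg : (n : ℕ) → Hist n → Fin (n + 1) → ℕ
  | 0, _ => fun _ => 2
  | (n + 1), (h, t) => fun v => (Fin.snoc (α := fun _ => ℕ) (deg n h) 1 : Fin (n + 2) → ℕ) v +
      if v = t then 1 else 0

/-- the weights from which node `n + 1` chooses: the degrees of the nodes `0, …, n`, and `1` for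
itself -/
def off (n : ℕ) (h : Hist n) : Fin (n + 2) → ℕ := Fin.snoc (α := fun _ => ℕ) (deg n h) 1

/-- the joint probability of the history `h` and the labels `l`: node `n + 1` gets its label with
probability `pi`, and links to `v` with probability proportional to `gm (its label) (label of v)` times
the weight of `v` -/
noncomputable def joint {K : ℕ} (θ : Par K) : (n : ℕ) → Hist n → (Fin (n + 1) → Fin K) → ℝ
  | 0, _, l => θ.pi (l 0)
  | (n + 1), (h, t), l =>
    joint θ n h (Fin.init l) * (θ.pi (l (Fin.last (n + 1))) *
      (θ.gm (l (Fin.last (n + 1))) (l t) * (off n h t : ℝ) /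
        ∑ v : Fin (n + 2), θ.gm (l (Fin.last (n + 1))) (l v) * (off n h v : ℝ)))

/-- the probability of the observed history (the marginal likelihood) -/
noncomputable def P {K : ℕ} (θ : Par K) (n : ℕ) (h : Hist n) : ℝ :=
  ∑ l : Fin (n + 1) → Fin K, joint θ n h l

/-- `θ'` is obtained from `θ` by a relabelling of the communities and a scaling of the matrix -/
def SameOrbit {K : ℕ} (θ θ' : Par K) : Prop :=
  ∃ (e : Equiv.Perm (Fin K)) (c : ℝ), 0 < c ∧ (∀ j, θ'.pi j = θ.pi (e j)) ∧
    ∀ i j, θ'.gm i j = c * θ.gm (e i) (e j)

/-- identifiable parameters: all labels have positive probability, and every parameter with the same law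
of the observed history is obtained by relabelling and scaling -/
def Identifiable {K : ℕ} (θ : Par K) : Prop :=
  θ.Adm ∧ (∀ j, 0 < θ.pi j) ∧
    ∀ θ' : Par K, θ'.Adm → (∀ (n : ℕ) (h : Hist n), P θ' n h = P θ n h) → SameOrbit θ θ'

/-- `θ'` is `ε`-close to `θ` after a relabelling and a scaling of the matrix -/
def Close {K : ℕ} (ε : ℝ) (θ θ' : Par K) : Prop :=
  ∃ (e : Equiv.Perm (Fin K)) (c : ℝ), 0 < c ∧ (∀ j, |θ'.pi (e j) - θ.pi j| < ε) ∧
    ∀ i j, |c * θ'.gm (e i) (e j) - θ.gm i j| < ε

open Classical in
/-- the estimators `T n` (functions of the observed history) are consistent at `θ`: they converge to `θ`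
in probability, modulo relabelling and scaling, when the data come from the model with parameter `θ` -/
def Consistent {K : ℕ} (T : (n : ℕ) → Hist n → Par K) (θ : Par K) : Prop :=
  ∀ ε : ℝ, 0 < ε →
    Tendsto (fun n => ∑ h : Hist n, if Close ε θ (T n h) then P θ n h else 0) atTop (𝓝 1)

end Pool.Agent.L7h93.HPA
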