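import Pool.Agent.L7h93.HPA.Defs

/-!
# Project HPA (helper93): no estimator is consistent in the hierarchical preferential attachment model

Full answer (disproof) of `MP_7e57c2_pr` Q1. Two identifiable parameters `θ₁`, `θ₂` with two labels such
that no sequence of estimators (in particular no choice of the MLE) is consistent at both.

Idea: `γ_ij = 1 + y v_i v_j` with `E v = 0`, `x = y E v²` the same for both. The reference law `R`: the new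
node chooses `v` with probability `deg v / D`, a loop with probability `(1 + x) / D`, `D = E + 1 + x`,
`E = 2 (n + 1)` the total degree. The second moment of `P θ / R` under `R` is at most `3/2` for all `n`, so
disjoint events `A₁`, `A₂` with `P θ_i (A_i) → 1` would have `R (A_i) ≥ 2/3 - o(1)`.
-/

set_option autoImplicit false

open Filter Topology

namespace Pool.Agent.L7h93.HPA

/-- the loop excess -/
noncomputable def xx : ℝ := 1 / 1000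

/-- parameters with the matrix `1 + y v_i v_j` -/
noncomputable def par (p v : Fin 2 → ℝ) (y : ℝ) : Par 2 := ⟨p, fun i j => 1 + y * v i * v j⟩

/-- the conditions on the two-point distribution: mean zero, variance `σ`, `v² = τ v + σ` -/
structure Dat (p v : Fin 2 → ℝ) (y τ σ : ℝ) : Prop where
  p0 : ∀ i, 0 < p i
  psum : p 0 + p 1 = 1
  pv : p 0 * v 0 + p 1 * v 1 = 0
  vv : ∀ i, v i ^ 2 = τ * v i + σ
  vb : ∀ i, |v i| ≤ 2
  y0 : 0 < y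
  y1 : y ≤ 1 / 1000
  t0 : 0 ≤ τ
  t1 : τ ≤ 1
  s0 : 0 < σ
  s1 : σ ≤ 2
  ys : y * σ = xx

noncomputable def p1 : Fin 2 → ℝ := ![1 / 2, 1 / 2]
noncomputable def v1 : Fin 2 → ℝ := ![1, -1]
noncomputable def p2 : Fin 2 → ℝ := ![1 / 3, 2 / 3]
noncomputable def v2 : Fin 2 → ℝ := ![2, -1]

/-- `π = (1/2, 1/2)`, `γ = 1 ± 1/1000` -/
noncomputable def θ₁ : Par 2 := par p1 v1 (1 / 1000)
/-- `π = (1/3, 2/3)`, `γ = ((1 + 2x, 1 - x), (1 - x, 1 + x/2))`, `x = 1/1000` -/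
noncomputable def θ₂ : Par 2 := par p2 v2 (1 / 2000)

lemma dat1 : Dat p1 v1 (1 / 1000) 0 1 := by
  refine ⟨?_, ?_, ?_, ?_, ?_, ?_, ?_, ?_, ?_, ?_, ?_, ?_⟩ <;>
    simp [p1, v1, xx, Fin.forall_fin_two] <;> norm_num

lemma dat2 : Dat p2 v2 (1 / 2000) 1 2 := by
  refine ⟨?_, ?_, ?_, ?_, ?_, ?_, ?_, ?_, ?_, ?_, ?_, ?_⟩ <;>
    simp [p2, v2, xx, Fin.forall_fin_two] <;> norm_num

/-- the reference law -/
noncomputable def R : (n : ℕ) → Hist n → ℝ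
  | 0, _ => 1
  | (n + 1), (h, t) => R n h * ((if t = Fin.last (n + 1) then 1 + xx else 1) * (off n h t : ℝ) /
      (2 * ((n : ℝ) + 1) + 1 + xx))

/-- the Lyapunov function -/
noncomputable def psi (D a b c : ℝ) : ℝ :=
  Real.exp ((|a| ^ 3 + |b| ^ 3 + |c| ^ 3) / (10 ^ 8 * D ^ 2) + 1 / (1000 * Real.sqrt D))

/-- HPA-STEP. One step of the Lyapunov function. Put `u_a = U_a / D` (`|u_a| ≤ 4`), `W = ∑ |u_a|³`, `c = 10⁻⁸`,
`M = ∑ w`. `|z + δ|³ ≤ |z|³ + 3 z |z| δ + 3 |z| δ² + |δ|³` for all real `z`, `δ` (case `z ≥ 0 > z + δ`: the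
difference is `2 z (z² + 3 z δ + 3 δ²) ≥ 0`). So the exponent grows at most by
`G_i = c ∑_a [- |U_a|³ (4D+4)/(D² (D+2)²) + 3 U_a |U_a| δ_a/(D+2)² + (192 |U_a| + 512)/(D+2)²]
 + (1/1000) (1/√(D+2) - 1/√D)`, `|G_i| ≤ 1`, `exp G ≤ 1 + G + G²`. With
`|∑ w δ_a - U_a/D| ≤ ...`, `M ≥ 0.999`: the cubic terms give at most
`c |u_a|³ (D/(D+2))² (-0.996) ≤ -0.35 c |u_a|³`, and everything else is bounded by `0.3 c W + 30000 c D^(-3/2)`
(Young: `u²/D ≤ ε |u|³ + D⁻³/ε²`, `|u|/D ≤ ε |u|³ + D^(-3/2)/√ε`), while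
`1/√D - 1/√(D+2) ≥ 1/(√D (D+2)) ≥ (3/5) D^(-3/2)` and `1/1000 = 10⁵ c`. (Numerically the sum is at most
`1 + 100 c D^(-3/2)` even without the term with `√D`, so there is a factor `600` of room.) -/
def S_STEP : Prop := ∀ (ι : Type) [Fintype ι] (w d1 d2 d3 : ι → ℝ) (a b c D : ℝ), 3 ≤ D →
  (∀ i, 0 ≤ w i) → (∀ i, |d1 i| ≤ 8) → (∀ i, |d2 i| ≤ 8) → (∀ i, |d3 i| ≤ 8) →
  |a| ≤ 4 * D → |b| ≤ 4 * D → |c| ≤ 4 * D →
  |(∑ i, w i) - 1| ≤ (|a| ^ 3 + |b| ^ 3 + |c| ^ 3 + 1) / (10 ^ 10 * D ^ 3) →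
  |(∑ i, w i * d1 i) - a / D| ≤ (|a| + |b| + |c|) / (10 ^ 4 * D) + 2 / D →
  |(∑ i, w i * d2 i) - b / D| ≤ (|a| + |b| + |c|) / (10 ^ 4 * D) + 2 / D →
  |(∑ i, w i * d3 i) - c / D| ≤ (|a| + |b| + |c|) / (10 ^ 4 * D) + 2 / D →
  ∑ i, w i * psi (D + 2) (a + d1 i) (b + d2 i) (c + d3 i) ≤ psi D a b c

/-! ### The values of one step -/

section
variable (v : Fin 2 → ℝ) (y τ σ E S S' Q : ℝ) (k k' : Fin 2)

/-- the normalization of the first replica (label `k`) -/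
noncomputable def Zf : ℝ := E + y * v k * S + 1 + y * v k ^ 2
/-- `∑ d γ γ'` -/
noncomputable def A0 : ℝ := E + y * v k * S + y * v k' * S' + y ^ 2 * v k * v k' * Q
/-- `∑ d γ γ' v` -/
noncomputable def A1 : ℝ := S + y * v k * (τ * S + σ * E) + y * v k' * Q +
  y ^ 2 * v k * v k' * (τ * Q + σ * S')
/-- `∑ d γ γ' v'` -/
noncomputable def A2 : ℝ := S' + y * v k * Q + y * v k' * (τ * S' + σ * E) +
  y ^ 2 * v k * v k' * (τ * Q + σ * S)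
/-- `∑ d γ γ' v v'` -/
noncomputable def A3 : ℝ := Q + y * v k * (τ * Q + σ * S') + y * v k' * (τ * Q + σ * S) +
  y ^ 2 * v k * v k' * (τ ^ 2 * Q + τ * σ * (S + S') + σ ^ 2 * E)
/-- the loop -/
noncomputable def BB : ℝ := (1 + y * v k ^ 2) * (1 + y * v k' ^ 2) / (1 + xx)

end

/-- HPA-VAL. Put `D = E + 1 + x`, `s = y (S + τ) / D`, `s' = y (S' + τ) / D`, `φ = ∑ p_k v_k/(1 + s v_k)`,
`q = ∑ p_k/(1 + s v_k)` (same with a prime for `s'`). Then `q + s φ = 1`, `φ = - s ∑ p_k v_k²/(1 + s v_k)`,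
`∑ p_k v_k²/(1 + s v_k) = τ φ + σ q`, `|s| ≤ 2 y`-ish, `|φ| ≤ 3 |s|`, `Z_k = D (1 + s v_k)`,
`A0 + B = D (1 + s v_k + s' v_k' + y² v_k v_k' ω)`, `ω = (Q + τ²/(1 + x))/D`. So
`M = 1 + (y² ω - s s') φ φ'`, and the other values are polynomials in `q, φ, q', φ'`
(`∑∑ p p' (a + b v_k + c v_k' + d v_k v_k')/((1 + s v_k)(1 + s' v_k')) = a q q' + b φ q' + c q φ' + d φ φ'`):
`T1 = (y² ω - s s') (τ φ + σ q) φ' + (1/D) [S q q' + y (τ S + σ E) φ q' + y Q q φ' + y² (τ Q + σ S') φ φ'] +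
 (1/D) (1/(1+x)) ((1 + x) φ + y τ (τ φ + σ q)) ((1 + x) q' + y τ φ')`, etc. (Numerically
`|M - 1| ≤ 3 y⁴ (W + D⁻³)`, `|T_a - U_a/D| ≤ 6 y² ∑ |u| + 2/D`, `u = U/D`.) -/
def S_VAL : Prop := ∀ (p v : Fin 2 → ℝ) (y τ σ : ℝ), Dat p v y τ σ → ∀ E S S' Q : ℝ, 2 ≤ E →
  |S| ≤ 2 * E → |S'| ≤ 2 * E → |Q| ≤ 4 * E → ∀ D : ℝ, D = E + 1 + xx →
  |(∑ k, ∑ k', p k * p k' * (D * (A0 v y E S S' Q k k' + BB v y k k')) /
      (Zf v y E S k * Zf v y E S' k')) - 1| ≤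
    (|S + τ| ^ 3 + |S' + τ| ^ 3 + |Q| ^ 3 + 1) / (10 ^ 10 * D ^ 3) ∧
  |(∑ k, ∑ k', p k * p k' * (D * (v k * A0 v y E S S' Q k k' + A1 v y τ σ E S S' Q k k' +
      2 * v k * BB v y k k')) / (Zf v y E S k * Zf v y E S' k')) - (S + τ) / D| ≤
    (|S + τ| + |S' + τ| + |Q|) / (10 ^ 4 * D) + 2 / D ∧
  |(∑ k, ∑ k', p k * p k' * (D * (v k' * A0 v y E S S' Q k k' + A2 v y τ σ E S S' Q k k' +
      2 * v k' * BB v y k k')) / (Zf v y E S k * Zf v y E S' k')) - (S' + τ) / D| ≤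
    (|S + τ| + |S' + τ| + |Q|) / (10 ^ 4 * D) + 2 / D ∧
  |(∑ k, ∑ k', p k * p k' * (D * (v k * v k' * A0 v y E S S' Q k k' + A3 v y τ σ E S S' Q k k' +
      2 * v k * v k' * BB v y k k')) / (Zf v y E S k * Zf v y E S' k')) - Q / D| ≤
    (|S + τ| + |S' + τ| + |Q|) / (10 ^ 4 * D) + 2 / D

/-- HPA-SM (from `S_STEP`, `S_VAL`): the second moment. Two replicas: `V n = ∑_h ∑_l ∑_l' J J'/R · psi`, with
`E = 2 (n+1)`, `S = ∑ deg · v (l)`, `S' = ∑ deg · v (l')`, `Q = ∑ deg · v (l) v (l')`, `U = (S + τ, S' + τ, Q)`, is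
not increasing: for fixed `h, l, l'` apply `S_STEP` with `ι = Fin (n+2) × Fin 2 × Fin 2`. -/
def S_SM : Prop := ∀ (p v : Fin 2 → ℝ) (y τ σ : ℝ), Dat p v y τ σ → ∀ n : ℕ,
  ∑ h : Hist n, P (par p v y) n h ^ 2 / R n h ≤ 3 / 2

/-- HPA-DED: two parameters which are far apart, with second moments at most `3/2`. `Close (1/12) θ₁ T` and
`Close (1/12) θ₂ T` are incompatible (`|π - 1/2| < 1/12` against `|π - 1/3| < 1/12` for some
permutation), so the events `A_i` are disjoint; Cauchy-Schwarz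
`(∑_{A} P)² ≤ (∑_A R) (∑ P²/R)`, `∑ R = 1`. -/
def S_DED : Prop := S_SM → ∀ T : (n : ℕ) → Hist n → Par 2, ¬ (Consistent T θ₁ ∧ Consistent T θ₂)

/-- HPA-ID -/
def S_ID : Prop := Identifiable θ₁ ∧ Identifiable θ₂

end Pool.Agent.L7h93.HPA
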